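import Pool.Agent.H97.NW.RPD

/-! # [H87 RZ RDF] Exceptional rational numbers at level `B`

`Bad r n C B β`: some curve of degree `≤ n` and height `≤ H`, all of whose real points at infinity
carry an `r`-th root of `β`, has an integer point of size larger than `(B H)^C`.
`PairP r n lam`: the statement of the pair theorem (helper8) with the exponent `lam`. -/

namespace Pool.Agent.H8.RZ

open Polynomial Pool.Agent.H34.AC Pool.Agent.H97.NW

/-- `β` is exceptional at level `B` -/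
def Bad (r n C B : ℕ) (β : ℚ) : Prop :=
  ∃ F : MvPolynomial (Fin 2) ℤ, Irreducible (MvPolynomial.map (Int.castRingHom ℚ) F) ∧
    F.totalDegree ≤ n ∧ INFN r β F ∧ ∃ H : ℕ, 2 ≤ H ∧ (∀ m, |F.coeff m| ≤ (H : ℤ)) ∧
      ∃ x y : ℤ, vl F x y = 0 ∧ (B * H) ^ C < max x.natAbs y.natAbs

/-- a larger bound is a stronger condition -/
theorem Bad.mono {r n C C' B B' : ℕ} {β : ℚ}
    (hB : ∀ H : ℕ, 2 ≤ H → (B * H) ^ C ≤ (B' * H) ^ C') (h : Bad r n C' B' β) :
    Bad r n C B β := by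
  obtain ⟨F, h1, h2, h3, H, h4, h5, x, y, h6, h7⟩ := h
  exact ⟨F, h1, h2, h3, H, h4, h5, x, y, h6, lt_of_le_of_lt (hB H h4) h7⟩

/-- a larger level -/
theorem Bad.level {r n C C' B B' : ℕ} {β : ℚ} (hB0 : 1 ≤ B') (hB : B ≤ B') (hC : C ≤ C')
    (h : Bad r n C' B' β) : Bad r n C B β := by
  refine h.mono fun H hH => ?_
  have h1 : 1 ≤ B' * H := Nat.mul_pos (by omega) (by omega)
  exact (Nat.pow_le_pow_left (Nat.mul_le_mul_right H hB) C).trans (Nat.pow_le_pow_right h1 hC)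

/-- a level that is at most the square -/
theorem Bad.square {r n C C' B B' : ℕ} {β : ℚ} (hB0 : 1 ≤ B') (hB : B ≤ B' ^ 2)
    (hC : 2 * C ≤ C') (h : Bad r n C' B' β) : Bad r n C B β := by
  refine h.mono fun H hH => ?_
  have h1 : 1 ≤ B' * H := Nat.mul_pos (by omega) (by omega)
  calc (B * H) ^ C ≤ ((B' * H) ^ 2) ^ C := by
        apply Nat.pow_le_pow_left
        calc B * H ≤ B' ^ 2 * H := Nat.mul_le_mul_right H hB
          _ ≤ B' ^ 2 * H ^ 2 := Nat.mul_le_mul_left _ (by nlinarith)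
          _ = (B' * H) ^ 2 := by ring
    _ = (B' * H) ^ (2 * C) := by rw [← pow_mul]
    _ ≤ (B' * H) ^ C' := Nat.pow_le_pow_right h1 hC

end Pool.Agent.H8.RZ
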