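import Pool.Agent.H8.RZ.Defs
import Pool.Agent.H87.RZ.RDF

/-! # [H87 RZ REP] Repulsion of the exceptional rationals

`rep_z`: if `β'/β ≠ 1` has denominator `≤ Q` and `|β'/β - 1| ≤ Q^(-lam)`, then not both of `β, β'` are exceptional at level `Q`. -/

namespace Pool.Agent.H8.RZ

open Polynomial Pool.Agent.H34.AC Pool.Agent.H97.NW

/-- the statement of the pair theorem -/
def PairP (r n : ℕ) (lam : ℝ) : Prop :=
  ∃ C : ℕ, ∀ p q : ℕ, NP lam p q → C ≤ q → ∀ b0 b1 : ℚ, 0 < b0 → 0 < b1 →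
    b1 * q = p * b0 → ¬ (Bad r n C q b0 ∧ Bad r n C q b1)

/-- two close positive integers -/
theorem np_of_close {lam lam' : ℝ} (h0 : 0 < lam) (h1 : lam < lam') (h2 : lam' ≤ 1) :
    ∃ C : ℕ, ∀ p q : ℕ, 1 ≤ p → C ≤ q → Nat.Coprime p q → p ≠ q →
      |(p : ℝ) - q| ≤ (q : ℝ) ^ (1 - lam') → |(p : ℝ) - q| ≤ q / 2 → NP lam p q := by
  obtain ⟨C1, hC1⟩ := exists_nat_ge ((2 : ℝ) ^ (1 / (lam' - lam)))
  refine ⟨2 * C1 + 1, fun p q hp hq hcop hne hcl hhalf => ?_⟩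
  have hd : 0 < lam' - lam := by linarith
  have hqR : (1 : ℝ) ≤ q := by exact_mod_cast (by omega : 1 ≤ q)
  have hq0 : (0 : ℝ) < q := by linarith
  have hpR : (1 : ℝ) ≤ p := by exact_mod_cast hp
  have hp0 : (0 : ℝ) < p := by linarith
  have habs := abs_le.1 hhalf
  have hqp : (q : ℝ) ≤ 2 * p := by linarith [habs.1]
  have hpq : (p : ℝ) ≤ 2 * q := by linarith [habs.2]
  refine ⟨hp, by omega, hcop, hne, by exact_mod_cast hpq, by exact_mod_cast hqp, ?_, ?_⟩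
  · exact hcl.trans (Real.rpow_le_rpow_of_exponent_le hqR (by linarith))
  · have e1 : (C1 : ℝ) ≤ p := by
      have : 2 * C1 + 1 ≤ 2 * p := hq.trans (by exact_mod_cast hqp)
      exact_mod_cast (by omega : C1 ≤ p)
    have e2 : (2 : ℝ) ^ (1 / (lam' - lam)) ≤ p := hC1.trans e1
    have e3 : (2 : ℝ) ≤ (p : ℝ) ^ (lam' - lam) := by
      calc (2 : ℝ) = ((2 : ℝ) ^ (1 / (lam' - lam))) ^ (lam' - lam) := by
            rw [← Real.rpow_mul (by norm_num), one_div, inv_mul_cancel₀ hd.ne', Real.rpow_one]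
        _ ≤ (p : ℝ) ^ (lam' - lam) := Real.rpow_le_rpow (by positivity) e2 hd.le
    calc |(p : ℝ) - q| ≤ (q : ℝ) ^ (1 - lam') := hcl
      _ ≤ (2 * p : ℝ) ^ (1 - lam') := Real.rpow_le_rpow hq0.le hqp (by linarith)
      _ = 2 ^ (1 - lam') * (p : ℝ) ^ (1 - lam') := Real.mul_rpow (by norm_num) hp0.le
      _ ≤ 2 ^ (1 : ℝ) * (p : ℝ) ^ (1 - lam') := by
          apply mul_le_mul_of_nonneg_right _ (by positivity)
          exact Real.rpow_le_rpow_of_exponent_le (by norm_num) (by linarith)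
      _ ≤ (p : ℝ) ^ (lam' - lam) * (p : ℝ) ^ (1 - lam') := by
          rw [Real.rpow_one]
          exact mul_le_mul_of_nonneg_right e3 (by positivity)
      _ = (p : ℝ) ^ (1 - lam) := by
          rw [← Real.rpow_add hp0]
          congr 1
          ring

theorem rep_z (r n : ℕ) (lam0 lam : ℝ) (h0 : 0 < lam0) (h1 : lam0 < lam) (h2 : lam ≤ 1)
    (hp : PairP r n lam0) : ∃ C : ℕ, ∀ Q : ℕ, C ≤ Q → ∀ β β' : ℚ, 0 < β → 0 < β' → β ≠ β' →
      (β' / β).den ≤ Q → |((β' / β : ℚ) : ℝ) - 1| ≤ (Q : ℝ) ^ (-lam) →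
      ¬ (Bad r n C Q β ∧ Bad r n C Q β') := by
  obtain ⟨C0, hC0⟩ := hp
  obtain ⟨C1, hC1⟩ := np_of_close h0 h1 h2
  have hlam : 0 < lam := by linarith
  obtain ⟨C2, hC2⟩ := exists_nat_ge (((C0 : ℝ) + C1 + 2) ^ (1 / lam))
  refine ⟨C0 + C2 + 1, fun Q hQ β β' hβ hβ' hne hden hcl hbad => ?_⟩
  have hQR : (1 : ℝ) ≤ Q := by exact_mod_cast (by omega : 1 ≤ Q)
  have hQ0 : (0 : ℝ) < Q := by linarith
  have hQC : (C0 : ℝ) + C1 + 2 ≤ (Q : ℝ) ^ lam := by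
    have e1 : (((C0 : ℝ) + C1 + 2) ^ (1 / lam)) ≤ Q :=
      hC2.trans (by exact_mod_cast (by omega : C2 ≤ Q))
    calc (C0 : ℝ) + C1 + 2 = (((C0 : ℝ) + C1 + 2) ^ (1 / lam)) ^ lam := by
          rw [← Real.rpow_mul (by positivity), one_div, inv_mul_cancel₀ hlam.ne', Real.rpow_one]
      _ ≤ (Q : ℝ) ^ lam := Real.rpow_le_rpow (by positivity) e1 hlam.le
  obtain ⟨ω, hω⟩ : ∃ ω : ℚ, ω = β' / β := ⟨_, rfl⟩
  rw [← hω] at hden hcl
  have hω0 : 0 < ω := by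
    rw [hω]
    exact div_pos hβ' hβ
  have hω1 : ω ≠ 1 := by
    intro h
    rw [hω, div_eq_one_iff_eq hβ.ne'] at h
    exact hne h.symm
  obtain ⟨p, hp⟩ : ∃ p : ℕ, p = ω.num.natAbs := ⟨_, rfl⟩
  obtain ⟨q, hq⟩ : ∃ q : ℕ, q = ω.den := ⟨_, rfl⟩
  have hnum : (0 : ℤ) < ω.num := Rat.num_pos.2 hω0
  have hpn : (p : ℤ) = ω.num := by
    rw [hp]
    exact Int.natAbs_of_nonneg hnum.le
  have hp1 : 1 ≤ p := by
    have : (0 : ℤ) < p := by rw [hpn]; exact hnum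
    exact_mod_cast this
  have hq1 : 1 ≤ q := by
    rw [hq]
    exact ω.den_pos
  have hcop : Nat.Coprime p q := by
    rw [hp, hq]
    exact ω.reduced
  have hωq : ω * q = p := by
    have e1 := Rat.mul_den_eq_num ω
    rw [← hq, ← hpn] at e1
    exact_mod_cast e1
  have hpq : p ≠ q := by
    intro h
    rw [h] at hωq
    have hq0 : (q : ℚ) ≠ 0 := by exact_mod_cast (by omega : q ≠ 0)
    exact hω1 (mul_right_cancel₀ hq0 (by rw [hωq, one_mul]))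
  have hqR : (1 : ℝ) ≤ q := by exact_mod_cast hq1
  have hq0 : (0 : ℝ) < q := by linarith
  have hqQ : (q : ℝ) ≤ Q := by
    rw [hq]
    exact_mod_cast hden
  have hωR : ((ω : ℚ) : ℝ) * q = p := by exact_mod_cast hωq
  have habs : |(p : ℝ) - q| = |((ω : ℚ) : ℝ) - 1| * q := by
    rw [← hωR]
    have e1 : ((ω : ℚ) : ℝ) * q - q = (((ω : ℚ) : ℝ) - 1) * q := by ring
    rw [e1, abs_mul, abs_of_pos hq0]
  have hle : |(p : ℝ) - q| ≤ (Q : ℝ) ^ (-lam) * q := by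
    rw [habs]
    exact mul_le_mul_of_nonneg_right hcl hq0.le
  have hge : 1 ≤ |(p : ℝ) - q| := by
    have e1 : (1 : ℤ) ≤ |(p : ℤ) - q| := by
      apply Int.one_le_abs
      intro h
      exact hpq (by exact_mod_cast sub_eq_zero.1 h)
    have e2 : ((1 : ℤ) : ℝ) ≤ ((|(p : ℤ) - q| : ℤ) : ℝ) := by exact_mod_cast e1
    push_cast at e2
    exact e2
  have hQpos : 0 < (Q : ℝ) ^ lam := by positivity
  have hneg : (Q : ℝ) ^ (-lam) = 1 / (Q : ℝ) ^ lam := by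
    rw [Real.rpow_neg hQ0.le, one_div]
  have hqbig : (Q : ℝ) ^ lam ≤ q := by
    have e1 := hge.trans hle
    rw [hneg, one_div, inv_mul_eq_div, le_div_iff₀ hQpos, one_mul] at e1
    exact e1
  have hqC : C0 + C1 + 2 ≤ q := by
    have e1 := hQC.trans hqbig
    exact_mod_cast e1
  have hcl1 : |(p : ℝ) - q| ≤ (q : ℝ) ^ (1 - lam) := by
    refine hle.trans ?_
    have e1 : (Q : ℝ) ^ (-lam) ≤ (q : ℝ) ^ (-lam) :=
      Real.rpow_le_rpow_of_nonpos hq0 hqQ (by linarith)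
    calc (Q : ℝ) ^ (-lam) * q ≤ (q : ℝ) ^ (-lam) * q := mul_le_mul_of_nonneg_right e1 hq0.le
      _ = (q : ℝ) ^ (1 - lam) := by
          rw [sub_eq_add_neg, add_comm, Real.rpow_add hq0, Real.rpow_one]
  have hhalf : |(p : ℝ) - q| ≤ q / 2 := by
    refine hle.trans ?_
    rw [hneg, one_div, inv_mul_eq_div, div_le_div_iff₀ hQpos (by norm_num)]
    have e1 : (2 : ℝ) ≤ (Q : ℝ) ^ lam := by
      have := Nat.cast_nonneg (α := ℝ) C0
      have := Nat.cast_nonneg (α := ℝ) C1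
      linarith
    exact mul_le_mul_of_nonneg_left e1 hq0.le
  have hNP := hC1 p q hp1 (by omega) hcop hpq hcl1 hhalf
  have hb : β' * q = p * β := by
    have e1 : ω * β = β' := by
      rw [hω]
      exact div_mul_cancel₀ _ hβ.ne'
    rw [← e1, ← hωq]
    ring
  have hqQ' : q ≤ Q := by exact_mod_cast hqQ
  exact hC0 p q hNP (by omega) β β' hβ hβ' hb
    ⟨hbad.1.level (by omega) hqQ' (by omega), hbad.2.level (by omega) hqQ' (by omega)⟩

end Pool.Agent.H8.RZ
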