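import Pool.Agent.H97.NW.NZD
import Pool.Agent.H97.NW.ZD

/-! # [H87 RZ BLA] The block lemma, the case that the function vanishes at the integer points

The private lemmas `bla_deg .. bla_c` are copies of the private lemmas of `Pool/Agent/H97/NW/AUXN.lean`. -/

namespace Pool.Agent.H8.RZ

open Finset Polynomial Pool.Agent.H72.ES Pool.Agent.H87.SA2 Pool.Agent.H8.AW Pool.Agent.H52.AC
  Pool.Agent.H97.NW H4AR

private theorem bla_deg {m : ℕ} {ι : Type} [Fintype ι] [DecidableEq ι]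
    (M : Matrix ι ι (MvPolynomial (Fin m) ℤ)) (j : Fin m) (D : ℕ)
    (h : ∀ a b, (M a b).degreeOf j ≤ D) : M.det.degreeOf j ≤ Fintype.card ι * D := by
  have e := Fintype.equivFin ι
  rw [← Matrix.det_reindex_self e M]
  exact degreeOf_det_le _ j D (fun a b => h _ _)

private theorem bla_l1 {m : ℕ} {ι : Type} [Fintype ι] [DecidableEq ι]
    (M : Matrix ι ι (MvPolynomial (Fin m) ℤ)) (B : ℝ) (hB : 0 ≤ B)
    (h : ∀ i j, l1 (M i j) ≤ B) : l1 M.det ≤ ((Fintype.card ι).factorial : ℝ) * B ^ (Fintype.card ι) := by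
  have e := Fintype.equivFin ι
  rw [← Matrix.det_reindex_self e M]
  exact l1_det_le _ B hB (fun a b => h _ _)

private theorem bla_card {m n : ℕ} (P : Fin m → Ptd n) :
    Fintype.card (∀ v, Fin (P v).d) = ∏ v, (P v).d := by
  simp [Fintype.card_pi]

private theorem bla_sle {m n : ℕ} (P : Fin m → Ptd n) : ∏ v, (P v).d ≤ n ^ m := by
  calc ∏ v, (P v).d ≤ ∏ _v : Fin m, n := Finset.prod_le_prod' (fun v _ => (P v).C.dn)
    _ = n ^ m := by simp

private theorem bla_fact (s : ℕ) : Real.log (s.factorial : ℝ) ≤ (s : ℝ) * s := by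
  have h1 : (s.factorial : ℝ) ≤ (s : ℝ) ^ s := by exact_mod_cast Nat.factorial_le_pow s
  have h0 : (0 : ℝ) < s.factorial := by exact_mod_cast Nat.factorial_pos s
  calc Real.log (s.factorial : ℝ) ≤ Real.log ((s : ℝ) ^ s) := Real.log_le_log h0 h1
    _ = s * Real.log s := Real.log_pow _ _
    _ ≤ (s : ℝ) * s := mul_le_mul_of_nonneg_left (Real.log_le_self (Nat.cast_nonneg s)) (Nat.cast_nonneg s)

private theorem bla_log (m n c s : ℕ) (hm : 1 ≤ m) (hn : 1 ≤ n) (hc : 1 ≤ c) (hs : s ≤ n ^ m) (δ1 Y L : ℝ)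
    (hδ : 0 ≤ δ1) (b N d : Fin m → ℕ) (ell : Fin m → ℝ) (hb : ∀ v, 2 ≤ b v) (hN : ∀ v, 1 ≤ N v)
    (hd : ∀ v, 1 ≤ d v) (hdn : ∀ v, d v ≤ n) (h1 : ∀ v, (c : ℝ) * Real.log (b v) ≤ ell v)
    (h2 : ∀ v, ell v ≤ Y) (h3 : ∀ v, (N v : ℝ) * ell v ≤ Y) (hL0 : 0 ≤ L)
    (hL : L ≤ (s.factorial : ℝ) * (((∏ v, (N v * d v) : ℕ) : ℝ) * (Real.exp (δ1 * Y) *
      ∏ v, (((n + 1) ^ 2 * b v : ℕ) : ℝ) ^ n)) ^ s) :
    Real.log L ≤ (n : ℝ) ^ m * (δ1 * Y) + ((n : ℝ) ^ (2 * m) +
      (n : ℝ) ^ m * (m * n + m * (n * (2 * n + 1)))) * (Y / (c * Real.log 2)) := by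
  have hl2 : 0 < Real.log 2 := Real.log_pos (by norm_num)
  have hl1 : Real.log 2 ≤ 1 := by
    have := Real.log_two_lt_d9
    linarith
  have hcR : (1 : ℝ) ≤ c := by exact_mod_cast hc
  have hnR : (1 : ℝ) ≤ n := by exact_mod_cast hn
  have hcl : 0 < (c : ℝ) * Real.log 2 := by positivity
  obtain ⟨X, hX⟩ : ∃ X : ℝ, X = Y / (c * Real.log 2) := ⟨_, rfl⟩
  have hXY : X * (c * Real.log 2) = Y := by
    rw [hX]
    field_simp
  have hlb : ∀ v, Real.log 2 ≤ Real.log (b v) := fun v =>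
    Real.log_le_log (by norm_num) (by exact_mod_cast hb v)
  have hell : ∀ v, (c : ℝ) * Real.log 2 ≤ ell v := fun v =>
    (mul_le_mul_of_nonneg_left (hlb v) (by positivity)).trans (h1 v)
  have hX1 : 1 ≤ X := by
    have h := (hell ⟨0, hm⟩).trans (h2 ⟨0, hm⟩)
    rw [← hXY] at h
    by_contra hlt
    push Not at hlt
    nlinarith
  have hY0 : 0 < Y := by
    rw [← hXY]
    positivity
  have hNX : ∀ v, (N v : ℝ) ≤ X := by
    intro v
    have h := (mul_le_mul_of_nonneg_left (hell v) (Nat.cast_nonneg (N v))).trans (h3 v)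
    rw [← hXY] at h
    exact le_of_mul_le_mul_right h hcl
  have hbX : ∀ v, Real.log (b v) ≤ X := by
    intro v
    have h : (c : ℝ) * Real.log (b v) ≤ c * X := by
      refine ((h1 v).trans (h2 v)).trans ?_
      rw [← hXY]
      have : X * (c * Real.log 2) = (c * X) * Real.log 2 := by ring
      rw [this]
      have h0 : 0 ≤ (c : ℝ) * X := by positivity
      nlinarith
    exact le_of_mul_le_mul_left h (by positivity)
  have hδY : 0 ≤ δ1 * Y := by positivity
  rw [← hX]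
  rcases hL0.eq_or_lt with h0 | h0
  · rw [← h0, Real.log_zero]
    positivity
  · have hP1 : ∀ v, (0 : ℝ) < ((N v * d v : ℕ) : ℝ) := fun v => by
      exact_mod_cast Nat.mul_pos (hN v) (hd v)
    have hQ1 : ∀ v, (0 : ℝ) < (((n + 1) ^ 2 * b v : ℕ) : ℝ) ^ n := fun v => by
      have : 0 < (n + 1) ^ 2 * b v := Nat.mul_pos (by positivity) (by have := hb v; omega)
      have h' : (0 : ℝ) < (((n + 1) ^ 2 * b v : ℕ) : ℝ) := by exact_mod_cast this
      positivity
    have hP : (0 : ℝ) < ((∏ v, (N v * d v) : ℕ) : ℝ) := by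
      rw [Nat.cast_prod]
      exact Finset.prod_pos fun v _ => hP1 v
    have hQ : (0 : ℝ) < ∏ v, (((n + 1) ^ 2 * b v : ℕ) : ℝ) ^ n := Finset.prod_pos fun v _ => hQ1 v
    have hE : (0 : ℝ) < Real.exp (δ1 * Y) := Real.exp_pos _
    have hfac : (0 : ℝ) < s.factorial := by exact_mod_cast Nat.factorial_pos s
    have e1 : Real.log ((∏ v, (N v * d v) : ℕ) : ℝ) ≤ m * n * X := by
      rw [Nat.cast_prod, Real.log_prod (fun v _ => (hP1 v).ne')]
      calc ∑ v, Real.log ((N v * d v : ℕ) : ℝ) ≤ ∑ _v : Fin m, (n : ℝ) * X := by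
            refine Finset.sum_le_sum fun v _ => ?_
            refine (Real.log_le_self (hP1 v).le).trans ?_
            rw [Nat.cast_mul, mul_comm]
            have hdv : (d v : ℝ) ≤ n := by exact_mod_cast hdn v
            exact mul_le_mul hdv (hNX v) (Nat.cast_nonneg _) (by positivity)
        _ = m * n * X := by
            rw [Finset.sum_const, Finset.card_univ, Fintype.card_fin, nsmul_eq_mul]
            ring
    have e2 : Real.log (∏ v, (((n + 1) ^ 2 * b v : ℕ) : ℝ) ^ n) ≤ m * (n * (2 * n + 1)) * X := by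
      rw [Real.log_prod (fun v _ => (hQ1 v).ne')]
      calc ∑ v, Real.log ((((n + 1) ^ 2 * b v : ℕ) : ℝ) ^ n) ≤ ∑ _v : Fin m, (n * (2 * n + 1)) * X := by
            refine Finset.sum_le_sum fun v _ => ?_
            rw [Real.log_pow]
            have hbv : (0 : ℝ) < b v := by
              have := hb v
              exact_mod_cast (by omega : 0 < b v)
            have h5 : Real.log (((n + 1) ^ 2 * b v : ℕ) : ℝ) ≤ (2 * n + 1) * X := by
              push_cast
              rw [Real.log_mul (by positivity) hbv.ne', Real.log_pow]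
              have h6 : Real.log ((n : ℝ) + 1) ≤ n := by
                have := Real.log_le_sub_one_of_pos (show (0 : ℝ) < (n : ℝ) + 1 by positivity)
                linarith
              have h7 := hbX v
              push_cast
              nlinarith
            calc (n : ℝ) * Real.log (((n + 1) ^ 2 * b v : ℕ) : ℝ) ≤ n * ((2 * n + 1) * X) :=
                  mul_le_mul_of_nonneg_left h5 (by positivity)
              _ = n * (2 * n + 1) * X := by ring
        _ = m * (n * (2 * n + 1)) * X := by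
            rw [Finset.sum_const, Finset.card_univ, Fintype.card_fin, nsmul_eq_mul]
            ring
    have e3 : Real.log L ≤ s * s + s * (m * n * X + (δ1 * Y + m * (n * (2 * n + 1)) * X)) := by
      refine (Real.log_le_log h0 hL).trans ?_
      rw [Real.log_mul hfac.ne' (by positivity), Real.log_pow, Real.log_mul hP.ne' (by positivity),
        Real.log_mul hE.ne' hQ.ne', Real.log_exp]
      apply add_le_add (bla_fact s)
      apply mul_le_mul_of_nonneg_left _ (Nat.cast_nonneg s)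
      linarith
    have hsR : (s : ℝ) ≤ (n : ℝ) ^ m := by exact_mod_cast hs
    have hZ : 0 ≤ m * n * X + (δ1 * Y + m * (n * (2 * n + 1)) * X) := by positivity
    have e4 : (s : ℝ) * s ≤ (n : ℝ) ^ (2 * m) * X := by
      have : (n : ℝ) ^ (2 * m) = (n : ℝ) ^ m * (n : ℝ) ^ m := by rw [two_mul, pow_add]
      rw [this]
      have h8 : (s : ℝ) * s ≤ (n : ℝ) ^ m * (n : ℝ) ^ m :=
        mul_le_mul hsR hsR (Nat.cast_nonneg _) (by positivity)
      have h9 : (0 : ℝ) ≤ (n : ℝ) ^ m * (n : ℝ) ^ m := by positivity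
      nlinarith
    have e5 := mul_le_mul_of_nonneg_right hsR hZ
    calc Real.log L ≤ s * s + s * (m * n * X + (δ1 * Y + m * (n * (2 * n + 1)) * X)) := e3
      _ ≤ (n : ℝ) ^ (2 * m) * X + (n : ℝ) ^ m * (m * n * X + (δ1 * Y + m * (n * (2 * n + 1)) * X)) :=
          add_le_add e4 e5
      _ = _ := by ring

/-- the choice of c -/
private theorem bla_c (C δ Y : ℝ) (c : ℕ) (hδ : 0 < δ) (hC : 0 ≤ C) (hY : 0 ≤ Y)
    (hc : 4 * C / δ ≤ c) (hc1 : 1 ≤ c) : C * (Y / (c * Real.log 2)) ≤ δ / 2 * Y := by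
  have hl2 : 1 / 2 ≤ Real.log 2 := by
    have := Real.log_two_gt_d9
    linarith
  have hcR : (1 : ℝ) ≤ c := by exact_mod_cast hc1
  have hcl : 0 < (c : ℝ) * Real.log 2 := by positivity
  have h1 : 4 * C ≤ c * δ := by
    rw [div_le_iff₀ hδ] at hc
    exact hc
  have h2 : C * (Y / (c * Real.log 2)) = (C * Y) / (c * Real.log 2) := by ring
  rw [h2, div_le_iff₀ hcl]
  have h3 : C ≤ δ / 2 * (c * Real.log 2) := by nlinarith
  calc C * Y ≤ (δ / 2 * (c * Real.log 2)) * Y := mul_le_mul_of_nonneg_right h3 hY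
    _ = δ / 2 * Y * (c * Real.log 2) := by ring


/-- the constant term of the shifted polynomial is the value -/
theorem bla_eval {m : ℕ} (x : Fin m → ℤ) (f : MvPolynomial (Fin m) ℤ) :
    (sh x f).coeff 0 = MvPolynomial.eval x f := by
  have h1 : (MvPolynomial.constantCoeff (R := ℤ) (σ := Fin m)).comp ((sh x).toRingHom) =
      MvPolynomial.eval x := by
    apply MvPolynomial.ringHom_ext
    · intro a
      simp [sh_C]
    · intro v
      simp [sh_X]
  have h2 := RingHom.congr_fun h1 f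
  rw [← h2]
  rfl

private theorem bla_pow {a x : ℝ} (ha : 1 ≤ a) (hx : 0 < x) (c0 : ℕ) (h : c0 * Real.log a ≤ Real.log x) :
    a ^ c0 ≤ x := by
  have ha0 : 0 < a := by linarith
  rw [← Real.log_pow] at h
  exact (Real.log_le_log_iff (pow_pos ha0 _) hx).1 h

private theorem bla_abs {x : ℤ} (h : 0 < Real.log |(x : ℝ)|) : 0 < |(x : ℝ)| := by
  rw [abs_pos]
  intro h0
  rw [h0, abs_zero, Real.log_zero] at h
  exact lt_irrefl _ h

theorem bla (n : ℕ) (hn : 4 ≤ n) (K0 R : ℝ) (hK0 : 1 ≤ K0) (hR : 1 ≤ R) :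
    ∃ As : ℕ, ∀ c0 : ℕ, ∃ (δ : ℝ) (c : ℕ), 0 < δ ∧ cA n ≤ c ∧ ∀ (P : Fin 2 → Ptd n),
      (∀ v, (P v).Thr c) → (P 0).ell ≤ R * (P 1).ell → (P 1).ell ≤ R * (P 0).ell →
      ∀ Y : ℝ, Y = K0 * max (P 0).ell (P 1).ell → (∀ v, 1 ≤ Nf P Y v) →
      ∀ (δ' : ℝ), 0 ≤ δ' → δ' ≤ δ → ∀ A : Mo P (Nf P Y) → ℤ, A ≠ 0 →
      (∀ μ, |(A μ : ℝ)| ≤ Real.exp (δ' * Y)) → Lm P (Nf P Y) A 0 = 0 →
      Spc As c0 (P 0).x (P 1).x := by
  have hnR : (4 : ℝ) ≤ n := by exact_mod_cast hn
  have hn2 : (1 : ℝ) ≤ (n : ℝ) ^ 2 := one_le_pow₀ (by linarith)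
  have hK00 : 0 < K0 := by linarith
  have hR0 : 0 < R := by linarith
  obtain ⟨As, hAs⟩ : ∃ As : ℕ, (n : ℝ) ^ 2 * (K0 * R + n * n) ≤ As := exists_nat_ge _
  refine ⟨As, fun c0 => ?_⟩
  obtain ⟨CC, hCC⟩ : ∃ CC : ℝ, CC = (n : ℝ) ^ (2 * 2) + (n : ℝ) ^ 2 * ((2 : ℕ) * n + (2 : ℕ) * (n * (2 * n + 1))) :=
    ⟨_, rfl⟩
  have hCC0 : 0 ≤ CC := by
    rw [hCC]
    positivity
  -- `η` is the allowed size of `log l1 / Y`
  obtain ⟨η, hη⟩ : ∃ η : ℝ, η = 1 / (K0 * R * (c0 + 1)) := ⟨_, rfl⟩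
  have hη0 : 0 < η := by rw [hη]; positivity
  have hη1 : η * (K0 * R * (c0 + 1)) = 1 := by
    rw [hη]
    field_simp
  obtain ⟨δ, hδ⟩ : ∃ δ : ℝ, δ = η / (2 * (n : ℝ) ^ 2) := ⟨_, rfl⟩
  have hδ0 : 0 < δ := by rw [hδ]; positivity
  have hδ1 : (n : ℝ) ^ 2 * δ ≤ η / 2 := by
    rw [hδ]
    apply le_of_eq
    field_simp
  refine ⟨δ, cA n + ⌈4 * CC / η⌉₊ + 1, hδ0, by omega, ?_⟩
  intro P hThr h01 h10 Y hY hNf δ' hδ' hδδ A hA0 hA hL0
  have hTA : ∀ v, (P v).Thr (cA n) := fun v => Ptd.thr_mono _ (by omega) (hThr v)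
  have hge : ∀ v, ((cA n + ⌈4 * CC / η⌉₊ + 1 : ℕ) : ℝ) * Real.log (P v).b ≤ (P v).ell := fun v =>
    (Ptd.ell_ge _ (hThr v)).1
  have hell0 : ∀ v, 0 < (P v).ell := by
    intro v
    have h1 := (Ptd.ell_ge _ (hThr v)).2
    have h2 : 0 < Real.log 2 := Real.log_pos (by norm_num)
    refine lt_of_lt_of_le ?_ h1
    push_cast
    positivity
  have hmax : ∀ v, (P v).ell ≤ max (P 0).ell (P 1).ell := by
    intro v
    fin_cases v
    · exact le_max_left _ _
    · exact le_max_right _ _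
  have hellY : ∀ v, (P v).ell ≤ Y := fun v => by
    rw [hY]
    exact (hmax v).trans (le_mul_of_one_le_left ((hell0 0).le.trans (le_max_left _ _)) hK0)
  have hY0 : 0 < Y := lt_of_lt_of_le (hell0 0) (hellY 0)
  have hYR : ∀ v, Y ≤ K0 * R * (P v).ell := by
    intro v
    have e0 : max (P 0).ell (P 1).ell ≤ R * (P v).ell := by
      fin_cases v
      · exact max_le (le_mul_of_one_le_left (hell0 0).le hR) h10
      · exact max_le h01 (le_mul_of_one_le_left (hell0 1).le hR)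
    rw [hY, mul_assoc]
    exact mul_le_mul_of_nonneg_left e0 hK00.le
  have hNY : ∀ v, (Nf P Y v : ℝ) * (P v).ell ≤ Y := by
    intro v
    have h5 : Nf P Y v ≤ Df P Y v := by
      unfold Nf
      have := (P v).C.d1
      omega
    have h6 : (Df P Y v : ℝ) ≤ Y / (P v).ell := Nat.floor_le (by have := hell0 v; positivity)
    have h7 : (Nf P Y v : ℝ) ≤ Y / (P v).ell := le_trans (by exact_mod_cast h5) h6
    rwa [le_div_iff₀ (hell0 v)] at h7
  have hNle : ∀ v, (Nf P Y v : ℝ) ≤ K0 * R := by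
    intro v
    exact le_of_mul_le_mul_right ((hNY v).trans (hYR v)) (hell0 v)
  have hs := bla_card P
  have hsle := bla_sle P
  obtain ⟨g, hg⟩ : ∃ g, g = (MG P (Nf P Y) A).det := ⟨_, rfl⟩
  have hgne : g ≠ 0 := by
    rw [hg]
    exact det_ne hn P hTA _ A hA0
  have hg1 : 1 ≤ l1 g := one_le_l1 hgne
  -- the height
  have hlog : Real.log (l1 g) ≤ η * Y := by
    have hbig := bla_l1 (MG P (Nf P Y) A)
      (((∏ v, (Nf P Y v * (P v).d) : ℕ) : ℝ) * (Real.exp (δ' * Y) *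
      ∏ v, (((n + 1) ^ 2 * (P v).b : ℕ) : ℝ) ^ n)) (by positivity) (fun i j => MG_l1 P _ A hA i j)
    rw [hs] at hbig
    have hfin := bla_log 2 n (cA n + ⌈4 * CC / η⌉₊ + 1) (∏ v, (P v).d) (by norm_num) (by omega)
      (by omega) hsle δ' Y _ hδ' (fun v => (P v).b) (Nf P Y) (fun v => (P v).d)
      (fun v => (P v).ell) (fun v => (P v).C.b2) hNf (fun v => (P v).C.d1) (fun v => (P v).C.dn)
      hge hellY hNY (l1_nonneg _) hbig
    rw [← hg, ← hCC] at hfin
    refine hfin.trans ?_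
    have h1 := bla_c CC η Y (cA n + ⌈4 * CC / η⌉₊ + 1) hη0 hCC0 hY0.le ?_ (by omega)
    · have h2 : (n : ℝ) ^ 2 * (δ' * Y) ≤ η / 2 * Y := by
        have e1 : (n : ℝ) ^ 2 * δ' ≤ η / 2 :=
          (mul_le_mul_of_nonneg_left hδδ (by linarith)).trans hδ1
        rw [← mul_assoc]
        exact mul_le_mul_of_nonneg_right e1 hY0.le
      linarith
    · have h3 := Nat.le_ceil (4 * CC / η)
      push_cast
      have h4 : (0 : ℝ) ≤ cA n := Nat.cast_nonneg _
      linarith
  have hpow : ∀ v, l1 g ^ c0 ≤ |((P v).x : ℝ)| := by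
    intro v
    have hpos : 0 < Real.log |((P v).x : ℝ)| := hell0 v
    refine bla_pow hg1 (bla_abs hpos) c0 ?_
    have e1 : (c0 : ℝ) * Real.log (l1 g) ≤ c0 * (η * Y) :=
      mul_le_mul_of_nonneg_left hlog (Nat.cast_nonneg _)
    have e2 : (c0 : ℝ) * (η * Y) ≤ (c0 + 1) * (η * (K0 * R * (P v).ell)) := by
      apply mul_le_mul (by linarith) _ (by positivity) (by positivity)
      exact mul_le_mul_of_nonneg_left (hYR v) hη0.le
    have e3 : ((c0 : ℝ) + 1) * (η * (K0 * R * (P v).ell)) = (P v).ell := by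
      calc ((c0 : ℝ) + 1) * (η * (K0 * R * (P v).ell))
          = (η * (K0 * R * (c0 + 1))) * (P v).ell := by ring
        _ = (P v).ell := by rw [hη1, one_mul]
    have e4 : (P v).ell = Real.log |((P v).x : ℝ)| := rfl
    linarith
  refine ⟨g, hgne, ?_, ?_, hpow 0, hpow 1⟩
  · intro v
    have h1 := bla_deg (MG P (Nf P Y) A) v (Nf P Y v + n * n) (fun i j => MG_deg P _ A i j v)
    rw [hs] at h1
    have h2 : g.degreeOf v ≤ n ^ 2 * (Nf P Y v + n * n) := by
      rw [hg]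
      exact h1.trans (Nat.mul_le_mul_right _ hsle)
    have h3 : (g.degreeOf v : ℝ) ≤ (n : ℝ) ^ 2 * ((Nf P Y v : ℝ) + n * n) := by
      exact_mod_cast h2
    have h4 : (g.degreeOf v : ℝ) ≤ As := by
      refine (h3.trans ?_).trans hAs
      apply mul_le_mul_of_nonneg_left _ (by linarith)
      linarith [hNle v]
    exact_mod_cast h4
  · have hmin : 0 < min (P 0).ell (P 1).ell := lt_min (hell0 0) (hell0 1)
    have h1 := det_idx hn P hTA (Nf P Y) A (θ := min (P 0).ell (P 1).ell)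
      (fun v => (hell0 v).le) ?_ 0 (by simpa using hmin)
    · rw [bla_eval, ← hg] at h1
      have h2 : (fun v => (P v).x) = ![(P 0).x, (P 1).x] := by
        funext v
        fin_cases v <;> rfl
      rw [h2] at h1
      exact h1
    · intro K hK
      have hK0' : K = 0 := by
        rw [Fin.sum_univ_two] at hK
        by_contra hne
        have h3 : K 0 ≠ 0 ∨ K 1 ≠ 0 := by
          by_contra hc
          push Not at hc
          apply hne
          funext v
          fin_cases v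
          · exact hc.1
          · exact hc.2
        have hb0 : (0 : ℝ) ≤ K 0 := Nat.cast_nonneg _
        have hb1 : (0 : ℝ) ≤ K 1 := Nat.cast_nonneg _
        rcases h3 with h3 | h3
        · have h4 : (1 : ℝ) ≤ K 0 := by exact_mod_cast Nat.one_le_iff_ne_zero.2 h3
          have h5 : (P 0).ell ≤ (P 0).ell * K 0 := le_mul_of_one_le_right (hell0 0).le h4
          have h6 : 0 ≤ (P 1).ell * K 1 := mul_nonneg (hell0 1).le hb1
          have h7 : min (P 0).ell (P 1).ell ≤ (P 0).ell := min_le_left _ _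
          linarith
        · have h4 : (1 : ℝ) ≤ K 1 := by exact_mod_cast Nat.one_le_iff_ne_zero.2 h3
          have h5 : (P 1).ell ≤ (P 1).ell * K 1 := le_mul_of_one_le_right (hell0 1).le h4
          have h6 : 0 ≤ (P 0).ell * K 0 := mul_nonneg (hell0 0).le hb0
          have h7 : min (P 0).ell (P 1).ell ≤ (P 1).ell := min_le_right _ _
          linarith
      rw [hK0']
      exact hL0

end Pool.Agent.H8.RZ
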