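import Mathlib

/-! # [H87 RZ BLN] Numbers for the zero estimate of the block lemma -/

namespace Pool.Agent.H8.RZ

private theorem bln_a (τ c Y : ℝ) (hc : c ≠ 0) : (τ * c / 4) * (Y / c) = τ * Y / 4 := by
  field_simp

private theorem bln_b (r τ : ℝ) (hr : r ≠ 0) : r * (τ / (4 * r)) = τ / 4 := by
  field_simp

/-- the zero estimate is impossible for large `Y` -/
theorem bln (r R0 : ℕ) (hr : 1 ≤ r) (τ δ c L Y lam : ℝ) (hτ : 0 < τ)
    (hlam : 0 < lam) (hlam1 : lam ≤ 1) (hδ : R0 * δ ≤ τ / (4 * r)) (hδ0 : 0 < δ) (hc1 : 1 ≤ c)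
    (hc : 4 * r * ((r : ℝ) + R0 + 2 + R0 * 2 + R0 * R0 + R0 * (R0 * r)) ≤ τ * c)
    (hL : c ≤ L) (hLY : c * L ≤ Y) (p q : ℕ) (hq : Real.log q = L) (hpq : p ≤ 2 * q) (J : ℕ)
    (hJ : ((J : ℝ) + 1) * L ≤ Y) (r0 : ℕ) (hr01 : 1 ≤ r0) (hr0 : r0 ≤ R0)
    (h : (q : ℝ) ^ ((⌊τ * Y / (lam * L)⌋₊ - r0) / r) ≤
      (max (q : ℝ) p) ^ r0 * ((r0 : ℝ) * ((r * (J + 1) : ℝ) ^ r0 * Real.exp (δ * Y))) ^ r0) :
    False := by
  have hL0 : 0 < L := by linarith
  have hY0 : 0 < Y := lt_of_lt_of_le (by positivity) hLY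
  have hrR : (1 : ℝ) ≤ r := by exact_mod_cast hr
  have hr01R : (1 : ℝ) ≤ r0 := by exact_mod_cast hr01
  have hr0R : (r0 : ℝ) ≤ R0 := by exact_mod_cast hr0
  have hR0 : (0 : ℝ) ≤ R0 := Nat.cast_nonneg _
  have hq0 : (0 : ℝ) < q := by
    rcases Nat.eq_zero_or_pos q with h0 | h0
    · rw [h0, Nat.cast_zero, Real.log_zero] at hq
      linarith
    · exact_mod_cast h0
  have hl2 : Real.log 2 ≤ 1 := by
    have := Real.log_two_lt_d9
    linarith
  have hJ1 : (0 : ℝ) < (J : ℝ) + 1 := by positivity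
  -- the left hand side
  set K : ℕ := ⌊τ * Y / (lam * L)⌋₊ with hK
  have hK1 : τ * Y / (lam * L) < (K : ℝ) + 1 := Nat.lt_floor_add_one _
  have hK2 : τ * Y ≤ ((K : ℝ) + 1) * L := by
    rw [div_lt_iff₀ (by positivity)] at hK1
    have h1 : ((K : ℝ) + 1) * (lam * L) ≤ ((K : ℝ) + 1) * L := by
      apply mul_le_mul_of_nonneg_left _ (by positivity)
      nlinarith
    linarith
  have hM : (K : ℝ) ≤ r * (((K - r0) / r : ℕ) : ℝ) + r + r0 := by
    have h1 : K ≤ r * ((K - r0) / r) + r + r0 := by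
      have h2 := Nat.div_add_mod (K - r0) r
      have h3 := Nat.mod_lt (K - r0) (show 0 < r by omega)
      omega
    exact_mod_cast h1
  -- logarithms
  have hmax : Real.log (max (q : ℝ) p) ≤ L + 1 := by
    have h1 : max (q : ℝ) p ≤ 2 * q := by
      apply max_le
      · linarith
      · exact_mod_cast hpq
    have h2 := Real.log_le_log (lt_max_of_lt_left hq0) h1
    rw [Real.log_mul (by norm_num) hq0.ne', hq] at h2
    linarith
  have hmax0 : (0 : ℝ) < max (q : ℝ) p := lt_max_of_lt_left hq0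
  have hb0 : (0 : ℝ) < r * (J + 1) := by positivity
  have h1 := Real.log_le_log (by positivity) h
  rw [Real.log_pow, Real.log_mul (by positivity) (by positivity), Real.log_pow, Real.log_pow,
    Real.log_mul (by positivity) (by positivity), Real.log_mul (by positivity) (by positivity),
    Real.log_pow, Real.log_exp, hq] at h1
  have h2 : Real.log (r0 : ℝ) ≤ R0 := (Real.log_le_self (by linarith)).trans hr0R
  have h3 : Real.log ((r : ℝ) * (J + 1)) ≤ r * (Y / c) := by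
    refine (Real.log_le_self hb0.le).trans ?_
    apply mul_le_mul_of_nonneg_left _ (by linarith)
    rw [le_div_iff₀ (by linarith)]
    calc ((J : ℝ) + 1) * c ≤ ((J : ℝ) + 1) * L := mul_le_mul_of_nonneg_left hL hJ1.le
      _ ≤ Y := hJ
  have hLc : L ≤ Y / c := by
    rw [le_div_iff₀ (by linarith)]
    linarith
  have h1c : 1 ≤ Y / c := by
    have : 1 ≤ L := by linarith
    linarith
  have hYc : 0 ≤ Y / c := by linarith
  -- the right hand side
  have h4 : (r0 : ℝ) * Real.log (max (q : ℝ) p) ≤ R0 * (2 * (Y / c)) := by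
    have e1 : Real.log (max (q : ℝ) p) ≤ 2 * (Y / c) := by linarith
    calc (r0 : ℝ) * Real.log (max (q : ℝ) p) ≤ r0 * (2 * (Y / c)) :=
          mul_le_mul_of_nonneg_left e1 (by linarith)
      _ ≤ R0 * (2 * (Y / c)) := mul_le_mul_of_nonneg_right hr0R (by linarith)
  have h5 : (r0 : ℝ) * (Real.log r0 + ((r0 : ℝ) * Real.log ((r : ℝ) * (J + 1)) + δ * Y)) ≤
      R0 * (R0 * (Y / c) + (R0 * (r * (Y / c)) + δ * Y)) := by
    have e1 : (r0 : ℝ) * Real.log ((r : ℝ) * (J + 1)) ≤ R0 * (r * (Y / c)) := by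
      calc (r0 : ℝ) * Real.log ((r : ℝ) * (J + 1)) ≤ r0 * (r * (Y / c)) :=
            mul_le_mul_of_nonneg_left h3 (by linarith)
        _ ≤ R0 * (r * (Y / c)) := mul_le_mul_of_nonneg_right hr0R (by positivity)
    have e2 : (R0 : ℝ) ≤ R0 * (Y / c) := le_mul_of_one_le_right hR0 h1c
    have e3 : 0 ≤ δ * Y := by positivity
    have e4 : 0 ≤ R0 * (Y / c) + (R0 * (r * (Y / c)) + δ * Y) := by positivity
    calc (r0 : ℝ) * (Real.log r0 + ((r0 : ℝ) * Real.log ((r : ℝ) * (J + 1)) + δ * Y))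
        ≤ r0 * (R0 * (Y / c) + (R0 * (r * (Y / c)) + δ * Y)) := by
          apply mul_le_mul_of_nonneg_left _ (by linarith)
          linarith
      _ ≤ R0 * (R0 * (Y / c) + (R0 * (r * (Y / c)) + δ * Y)) :=
          mul_le_mul_of_nonneg_right hr0R e4
  have h6 : τ * Y ≤ r * ((((K - r0) / r : ℕ) : ℝ) * L) + (r + R0 + 1) * (Y / c) := by
    calc τ * Y ≤ ((K : ℝ) + 1) * L := hK2
      _ ≤ (r * (((K - r0) / r : ℕ) : ℝ) + r + r0 + 1) * L :=
          mul_le_mul_of_nonneg_right (by linarith) hL0.le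
      _ = r * ((((K - r0) / r : ℕ) : ℝ) * L) + (r + r0 + 1) * L := by ring
      _ ≤ r * ((((K - r0) / r : ℕ) : ℝ) * L) + (r + R0 + 1) * (Y / c) := by
          have e1 : ((r : ℝ) + r0 + 1) * L ≤ (r + R0 + 1) * (Y / c) :=
            mul_le_mul (by linarith) hLc hL0.le (by positivity)
          linarith
  have h7 : τ * Y ≤ r * (R0 * (2 * (Y / c)) + R0 * (R0 * (Y / c) + (R0 * (r * (Y / c)) + δ * Y))) +
      (r + R0 + 1) * (Y / c) := by
    have e1 : (((K - r0) / r : ℕ) : ℝ) * L ≤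
        R0 * (2 * (Y / c)) + R0 * (R0 * (Y / c) + (R0 * (r * (Y / c)) + δ * Y)) := by linarith
    have e2 := mul_le_mul_of_nonneg_left e1 (by linarith : (0 : ℝ) ≤ r)
    linarith
  have h8 : r * (R0 * (δ * Y)) ≤ τ * Y / 4 := by
    have e1 : r * (R0 * (δ * Y)) = (r * (R0 * δ)) * Y := by ring
    have e2 : r * (R0 * δ) ≤ τ / 4 := by
      calc (r : ℝ) * (R0 * δ) ≤ r * (τ / (4 * r)) := mul_le_mul_of_nonneg_left hδ (by linarith)
        _ = τ / 4 := bln_b _ _ (by linarith)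
    rw [e1]
    calc r * (R0 * δ) * Y ≤ τ / 4 * Y := mul_le_mul_of_nonneg_right e2 hY0.le
      _ = τ * Y / 4 := by ring
  have h9 : r * (R0 * (2 * (Y / c)) + R0 * (R0 * (Y / c) + R0 * (r * (Y / c)))) +
      (r + R0 + 1) * (Y / c) ≤ τ * Y / 4 := by
    have e0 : (r : ℝ) + R0 + 1 ≤ r * (r + R0 + 2) := by nlinarith
    have e1 : r * (R0 * (2 * (Y / c)) + R0 * (R0 * (Y / c) + R0 * (r * (Y / c)))) +
        (r + R0 + 1) * (Y / c) ≤
        (r * ((r : ℝ) + R0 + 2 + R0 * 2 + R0 * R0 + R0 * (R0 * r))) * (Y / c) := by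
      have e2 := mul_le_mul_of_nonneg_right e0 hYc
      linarith
    have e3 : r * ((r : ℝ) + R0 + 2 + R0 * 2 + R0 * R0 + R0 * (R0 * r)) ≤ τ * c / 4 := by linarith
    calc _ ≤ (r * ((r : ℝ) + R0 + 2 + R0 * 2 + R0 * R0 + R0 * (R0 * r))) * (Y / c) := e1
      _ ≤ (τ * c / 4) * (Y / c) := mul_le_mul_of_nonneg_right e3 hYc
      _ = τ * Y / 4 := bln_a _ _ _ (by linarith)
  have h10 : 0 < τ * Y := by positivity
  linarith

end Pool.Agent.H8.RZ
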