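import Pool.Agent.H8.RZ.Defs
import Pool.Agent.H97.AN.ZE

/-! # [H87 RZ HZP] The polynomial `h(ζ)` of the block lemma -/

namespace Pool.Agent.H8.RZ

open Finset Polynomial Pool.Agent.H72.ES Pool.Agent.H87.SA2 Pool.Agent.H8.AW Pool.Agent.H52.AC
  Pool.Agent.H97.NW Pool.Agent.H97.AN

variable {m n : ℕ}

/-- the array `A u μ` as a function of natural numbers `s, i` -/
noncomputable def extA {J r : ℕ} {M : Type} (A : Ix2 J r → M → ℤ) (μ : M) (s i : ℕ) : ℤ :=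
  if h : s < J + 1 ∧ i < r then A (⟨s, h.1⟩, ⟨i, h.2⟩) μ else 0

/-- the value of the monomial at the integer points -/
noncomputable def wv (P : Fin m → Ptd n) (N : Fin m → ℕ) (μ : Mo P N) : ℤ :=
  ∏ v, PowerSeries.coeff 0 ((P v).psi ((μ v).1, (μ v).2))

/-- the polynomial `h(ζ)` -/
noncomputable def hz (p q : ℕ) (P : Fin m → Ptd n) (N : Fin m → ℕ) {J r : ℕ}
    (A : Ix2 J r → Mo P N → ℤ) : ℤ[X] :=
  shp r J (q : ℤ) (p : ℤ) (fun s i => ∑ μ, wv P N μ * extA A μ s i)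

theorem sum_Ix2 {J r : ℕ} (f : ℕ → ℕ → ℤ[X]) :
    ∑ j ∈ range (J + 1), ∑ i ∈ range r, f j i = ∑ u : Ix2 J r, f u.1 u.2 := by
  rw [Fintype.sum_prod_type, ← Fin.sum_univ_eq_sum_range (fun j => ∑ i ∈ range r, f j i)]
  refine Finset.sum_congr rfl fun j _ => ?_
  rw [← Fin.sum_univ_eq_sum_range (fun i => f j i)]

theorem extA_eq {J r : ℕ} {M : Type} (A : Ix2 J r → M → ℤ) (μ : M) (u : Ix2 J r) :
    extA A μ u.1 u.2 = A u μ := by
  unfold extA
  rw [dif_pos ⟨u.1.2, u.2.2⟩]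

theorem hz_eq (p q : ℕ) (P : Fin m → Ptd n) (N : Fin m → ℕ) {J r : ℕ}
    (A : Ix2 J r → Mo P N → ℤ) :
    hz p q P N A = ∑ u : Ix2 J r, C (Lm P N (A u) 0 * ((q : ℤ) ^ (u.1 : ℕ) *
      (p : ℤ) ^ (J - (u.1 : ℕ)))) * X ^ ex u := by
  unfold hz shp
  rw [sum_Ix2 (fun j i => C ((∑ μ, wv P N μ * extA A μ j i) * ((q : ℤ) ^ j * (p : ℤ) ^ (J - j))) *
    X ^ (r * j + i))]
  refine Finset.sum_congr rfl fun u _ => ?_
  have h1 : ∑ μ, wv P N μ * extA A μ u.1 u.2 = Lm P N (A u) 0 := by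
    unfold Lm
    refine Finset.sum_congr rfl fun μ _ => ?_
    rw [extA_eq, mul_comm]
    rfl
  rw [h1]
  rfl

/-- the Hasse derivatives of `h` at `1` -/
theorem hz_hasse (p q : ℕ) (P : Fin m → Ptd n) (N : Fin m → ℕ) {J r : ℕ}
    (A : Ix2 J r → Mo P N → ℤ) (l : ℕ) :
    (hasseDeriv l (hz p q P N A)).eval 1 = Lz p q P N A l 0 := by
  rw [hz_eq, map_sum, eval_finsetSum]
  unfold Lz
  refine Finset.sum_congr rfl fun u _ => ?_
  rw [C_mul_X_pow_eq_monomial, hasseDeriv_monomial, eval_monomial, one_pow]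
  ring

theorem hz_dvd {f : ℤ[X]} {K : ℕ} (h : ∀ l < K, (hasseDeriv l f).eval 1 = 0) :
    (X - 1 : ℤ[X]) ^ K ∣ f := by
  have h1 : X ^ K ∣ taylor 1 f := by
    rw [X_pow_dvd_iff]
    intro d hd
    rw [taylor_coeff]
    exact h d hd
  obtain ⟨g, hg⟩ := h1
  refine ⟨taylor (-1) g, ?_⟩
  have h2 : taylor (-1) (taylor 1 f) = f := by
    rw [taylor_taylor]
    simp
  rw [← h2, hg, taylor_mul, taylor_pow, taylor_X]
  simp [sub_eq_add_neg]

theorem ex_inj {J r : ℕ} : Function.Injective (fun u : Ix2 J r => ex u) := by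
  rintro ⟨⟨s, hs⟩, ⟨i, hi⟩⟩ ⟨⟨s', hs'⟩, ⟨i', hi'⟩⟩ h
  have h1 : r * s + i = r * s' + i' := h
  have hr : 0 < r := by omega
  have h2 : s = s' := by
    have e1 : (r * s + i) / r = s := by
      rw [Nat.add_comm, Nat.add_mul_div_left _ _ hr, Nat.div_eq_of_lt hi, Nat.zero_add]
    have e2 : (r * s' + i') / r = s' := by
      rw [Nat.add_comm, Nat.add_mul_div_left _ _ hr, Nat.div_eq_of_lt hi', Nat.zero_add]
    rw [← e1, ← e2, h1]
  subst h2
  have h3 : i = i' := by omega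
  subst h3
  rfl

theorem hz_zero {p q : ℕ} (hp : 1 ≤ p) (hq : 1 ≤ q) (P : Fin m → Ptd n) (N : Fin m → ℕ)
    {J r : ℕ} (A : Ix2 J r → Mo P N → ℤ) (h : hz p q P N A = 0) (u : Ix2 J r) :
    Lm P N (A u) 0 = 0 := by
  have h1 := congrArg (fun f => f.coeff (ex u)) h
  simp only [hz_eq, finsetSum_coeff, coeff_C_mul, coeff_X_pow, coeff_zero] at h1
  rw [Finset.sum_eq_single u] at h1
  · rw [if_pos rfl, mul_one] at h1
    rcases mul_eq_zero.1 h1 with h2 | h2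
    · exact h2
    · exfalso
      have h3 : (0 : ℤ) < (q : ℤ) ^ (u.1 : ℕ) * (p : ℤ) ^ (J - (u.1 : ℕ)) := by
        have hq' : (0 : ℤ) < q := by exact_mod_cast hq
        have hp' : (0 : ℤ) < p := by exact_mod_cast hp
        positivity
      rw [h2] at h3
      exact lt_irrefl _ h3
  · intro w _ hw
    rw [if_neg, mul_zero]
    intro h2
    exact hw (ex_inj h2.symm)
  · intro h2
    exact absurd (Finset.mem_univ u) h2

/-- the zero estimate for `h` -/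
theorem hz_est {p q : ℕ} (hp : 1 ≤ p) (hq : 1 ≤ q) (hpq : Nat.Coprime p q)
    (P : Fin m → Ptd n) (N : Fin m → ℕ) {J r : ℕ} (hr : 1 ≤ r) (A : Ix2 J r → Mo P N → ℤ)
    {Z : ℝ} (hZ1 : 1 ≤ Z) (hZ : ∀ u μ, |(A u μ : ℝ)| ≤ Z) (hne : hz p q P N A ≠ 0) (K : ℕ)
    (hK : ∀ l < K, Lz p q P N A l 0 = 0) :
    (q : ℝ) ^ ((K - ∏ v, (N v * (P v).d)) / r) ≤
      (max (q : ℝ) p) ^ (∏ v, (N v * (P v).d)) * (((∏ v, (N v * (P v).d) : ℕ) : ℝ) *
        ((r * (J + 1) : ℝ) ^ (∏ v, (N v * (P v).d)) * Z)) ^ (∏ v, (N v * (P v).d)) := by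
  have hcard : Fintype.card (Mo P N) = ∏ v, (N v * (P v).d) := by
    rw [Fintype.card_pi]
    simp
  have h1 := zeroEst (nu := r) hr (a := (q : ℤ)) (b := (p : ℤ)) (by exact_mod_cast hq)
    (by exact_mod_cast hp) (by
      rw [Nat.isCoprime_iff_coprime]
      exact hpq.symm) J (ι := Mo P N) (∏ v, (N v * (P v).d)) hcard
    (fun μ s i => extA A μ s i) Z hZ1 ?_ (wv P N) hne K ?_
  · have e1 : ((q : ℤ) : ℝ) = (q : ℝ) := by push_cast; rfl
    have e2 : ((p : ℤ) : ℝ) = (p : ℝ) := by push_cast; rfl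
    rw [e1, e2] at h1
    exact h1
  · intro μ s i
    by_cases h : s < J + 1 ∧ i < r
    · have e1 : extA A μ s i = A (⟨s, h.1⟩, ⟨i, h.2⟩) μ := by
        unfold extA
        rw [dif_pos h]
      rw [e1]
      exact hZ _ _
    · have e1 : extA A μ s i = 0 := by
        unfold extA
        rw [dif_neg h]
      rw [e1]
      push_cast
      rw [abs_zero]
      linarith
  · refine hz_dvd fun l hl => ?_
    have h2 := hz_hasse p q P N A l
    rw [hK l hl] at h2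
    exact h2

end Pool.Agent.H8.RZ
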