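import Mathlib

/-! # [H87 RZ LCT] Counting multiplicatively separated rationals -/

namespace Pool.Agent.H8.RZ

open Finset

theorem log_one_add {θ : ℝ} (h0 : 0 < θ) (h1 : θ ≤ 1) : θ / 2 ≤ Real.log (1 + θ) := by
  have h2 : 0 < 1 + θ := by linarith
  have h3 := Real.one_sub_inv_le_log_of_pos h2
  have h4 : θ / 2 ≤ 1 - (1 + θ)⁻¹ := by
    have h5 : (1 + θ)⁻¹ ≤ 1 - θ / 2 := by
      rw [inv_le_comm₀ h2 (by linarith)]
      rw [inv_le_iff_one_le_mul₀ (by linarith)]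
      nlinarith
    linarith
  linarith

/-- multiplicatively separated positive rationals are few -/
theorem log_count (S : Finset ℚ) (A B θ : ℝ) (hAB : A ≤ B) (h0 : 0 < θ) (h1 : θ ≤ 1)
    (hpos : ∀ β ∈ S, 0 < β) (hA : ∀ β ∈ S, A ≤ Real.log β) (hB : ∀ β ∈ S, Real.log β ≤ B)
    (hsep : ∀ β ∈ S, ∀ β' ∈ S, β < β' → θ < ((β' / β : ℚ) : ℝ) - 1) :
    (S.card : ℝ) ≤ 2 * (B - A) / θ + 1 := by
  classical
  set φ : ℚ → ℕ := fun β => ⌊(Real.log β - A) * (2 / θ)⌋₊ with hφ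
  have h2θ : 0 < 2 / θ := by positivity
  have hlt : ∀ β ∈ S, ∀ β' ∈ S, β < β' → φ β < φ β' := by
    intro β hβ β' hβ' hlt
    have hb := hpos β hβ
    have hb' := hpos β' hβ'
    have hbR : (0 : ℝ) < β := by exact_mod_cast hb
    have hbR' : (0 : ℝ) < β' := by exact_mod_cast hb'
    have e1 := hsep β hβ β' hβ' hlt
    push_cast at e1
    have e2 : Real.log (1 + θ) ≤ Real.log ((β' : ℝ) / β) :=
      Real.log_le_log (by linarith) (by linarith)
    rw [Real.log_div hbR'.ne' hbR.ne'] at e2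
    have e3 := log_one_add h0 h1
    have e4 : (Real.log β - A) * (2 / θ) + 1 ≤ (Real.log β' - A) * (2 / θ) := by
      have e5 : θ / 2 ≤ Real.log β' - Real.log β := by linarith
      have e6 := mul_le_mul_of_nonneg_right e5 h2θ.le
      have e7 : θ / 2 * (2 / θ) = 1 := by field_simp
      linarith
    have e8 : 0 ≤ (Real.log β - A) * (2 / θ) := mul_nonneg (by linarith [hA β hβ]) h2θ.le
    have e9 : φ β + 1 ≤ φ β' := by
      have := Nat.floor_le_floor e4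
      rw [Nat.floor_add_one e8] at this
      exact this
    omega
  have hinj : Set.InjOn φ (S : Set ℚ) := by
    intro β hβ β' hβ' h
    rcases lt_trichotomy β β' with h3 | h3 | h3
    · exact absurd h (hlt β hβ β' hβ' h3).ne
    · exact h3
    · exact absurd h.symm (hlt β' hβ' β hβ h3).ne
  have hmap : ∀ β ∈ S, φ β ∈ range (⌊(B - A) * (2 / θ)⌋₊ + 1) := by
    intro β hβ
    rw [mem_range, Nat.lt_succ_iff]
    apply Nat.floor_le_floor
    exact mul_le_mul_of_nonneg_right (by linarith [hB β hβ]) h2θ.le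
  have hcard := Finset.card_le_card_of_injOn φ hmap hinj
  rw [card_range] at hcard
  have h3 : (S.card : ℝ) ≤ ⌊(B - A) * (2 / θ)⌋₊ + 1 := by exact_mod_cast hcard
  have h4 : (⌊(B - A) * (2 / θ)⌋₊ : ℝ) ≤ (B - A) * (2 / θ) :=
    Nat.floor_le (mul_nonneg (by linarith) h2θ.le)
  have h5 : (B - A) * (2 / θ) = 2 * (B - A) / θ := by ring
  linarith

/-- absorbing constants and a logarithm -/
theorem log_absorb (K s ε : ℝ) (hK : 0 ≤ K) (hs : 0 ≤ s) (hε : 0 < ε) : ∃ C : ℕ, ∀ T : ℕ, C ≤ T →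
    K * (Real.log T * (T : ℝ) ^ s) + K ≤ (T : ℝ) ^ (s + ε) := by
  obtain ⟨C, hC⟩ := exists_nat_ge ((K * (2 / ε) + K) ^ (2 / ε))
  refine ⟨C + 1, fun T hT => ?_⟩
  have hT1 : (1 : ℝ) ≤ T := by exact_mod_cast (by omega : 1 ≤ T)
  have hT0 : (0 : ℝ) < T := by linarith
  have h1 : Real.log T ≤ (T : ℝ) ^ (ε / 2) / (ε / 2) := Real.log_le_rpow_div hT0.le (by linarith)
  have h2 : K * (2 / ε) + K ≤ (T : ℝ) ^ (ε / 2) := by
    have e1 : (K * (2 / ε) + K) ^ (2 / ε) ≤ T := hC.trans (by exact_mod_cast (by omega : C ≤ T))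
    calc K * (2 / ε) + K = ((K * (2 / ε) + K) ^ (2 / ε)) ^ (ε / 2) := by
          rw [← Real.rpow_mul (by positivity)]
          have : 2 / ε * (ε / 2) = 1 := by field_simp
          rw [this, Real.rpow_one]
      _ ≤ (T : ℝ) ^ (ε / 2) := Real.rpow_le_rpow (by positivity) e1 (by linarith)
  have h3 : (1 : ℝ) ≤ (T : ℝ) ^ s := Real.one_le_rpow hT1 hs
  have h4 : (1 : ℝ) ≤ (T : ℝ) ^ (ε / 2) := Real.one_le_rpow hT1 (by linarith)
  have h5 : Real.log T * (T : ℝ) ^ s ≤ (2 / ε) * ((T : ℝ) ^ (ε / 2) * (T : ℝ) ^ s) := by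
    have e1 : (T : ℝ) ^ (ε / 2) / (ε / 2) = (2 / ε) * (T : ℝ) ^ (ε / 2) := by
      field_simp
    rw [e1] at h1
    calc Real.log T * (T : ℝ) ^ s ≤ ((2 / ε) * (T : ℝ) ^ (ε / 2)) * (T : ℝ) ^ s :=
          mul_le_mul_of_nonneg_right h1 (by positivity)
      _ = _ := by ring
  have h6 : (1 : ℝ) ≤ (T : ℝ) ^ (ε / 2) * (T : ℝ) ^ s := by nlinarith
  calc K * (Real.log T * (T : ℝ) ^ s) + K
      ≤ K * ((2 / ε) * ((T : ℝ) ^ (ε / 2) * (T : ℝ) ^ s)) +
          K * ((T : ℝ) ^ (ε / 2) * (T : ℝ) ^ s) := by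
        apply add_le_add
        · exact mul_le_mul_of_nonneg_left h5 hK
        · exact le_mul_of_one_le_right hK h6
    _ = (K * (2 / ε) + K) * ((T : ℝ) ^ (ε / 2) * (T : ℝ) ^ s) := by ring
    _ ≤ (T : ℝ) ^ (ε / 2) * ((T : ℝ) ^ (ε / 2) * (T : ℝ) ^ s) :=
        mul_le_mul_of_nonneg_right h2 (by positivity)
    _ = (T : ℝ) ^ (s + ε) := by
        rw [← Real.rpow_add hT0, ← Real.rpow_add hT0]
        congr 1
        ring

end Pool.Agent.H8.RZ
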