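import Pool.Agent.H87.RZ.REP
import Pool.Agent.H87.RZ.LCT

/-! # [H87 RZ INT] Short intervals, fixed denominators, bounded heights

`ivl_z`: at most one exceptional numerator in `[X, X + X^(1-lam)]`, for all denominators `b`.
`cnt_z`: at most `T^(lam')` exceptional numerators `a ≤ T`, for all denominators `b` (`lam < lam'`).
`hgt_z`: at most `T^(2 lam')` exceptional rationals of height `≤ T`. -/

namespace Pool.Agent.H8.RZ

open Polynomial Pool.Agent.H34.AC Pool.Agent.H97.NW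

/-- two numerators over the same denominator -/
theorem num_pair {a a' b : ℕ} (ha : 1 ≤ a) (hb : 1 ≤ b) (haa : a < a') :
    (0 : ℚ) < (a : ℚ) / b ∧ (0 : ℚ) < (a' : ℚ) / b ∧ ((a : ℚ) / b) ≠ (a' : ℚ) / b ∧
      (((a' : ℚ) / b) / ((a : ℚ) / b)).den ≤ a ∧
      (((((a' : ℚ) / b) / ((a : ℚ) / b) : ℚ)) : ℝ) - 1 = ((a' : ℝ) - a) / a := by
  have ha0 : (0 : ℚ) < a := by exact_mod_cast ha
  have hb0 : (0 : ℚ) < b := by exact_mod_cast hb
  have ha0' : (0 : ℚ) < a' := by exact_mod_cast (by omega : 0 < a')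
  have e1 : ((a' : ℚ) / b) / ((a : ℚ) / b) = (a' : ℚ) / a := by
    field_simp
  refine ⟨by positivity, by positivity, ?_, ?_, ?_⟩
  · intro h
    rw [div_left_inj' hb0.ne'] at h
    have : a = a' := by exact_mod_cast h
    omega
  · rw [e1]
    have h2 : ((a' : ℚ) / a).den ∣ a := by
      have h3 := Rat.den_dvd (a' : ℤ) (a : ℤ)
      rw [Rat.divInt_eq_div, Int.cast_natCast, Int.cast_natCast] at h3
      exact Int.natCast_dvd_natCast.1 h3
    exact Nat.le_of_dvd (by omega) h2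
  · rw [e1]
    push_cast
    have haR : (a : ℝ) ≠ 0 := by
      have : (0 : ℝ) < a := by exact_mod_cast ha
      exact this.ne'
    field_simp

theorem ivl_z (r n : ℕ) (lam0 lam : ℝ) (h0 : 0 < lam0) (h1 : lam0 < lam) (h2 : lam ≤ 1)
    (hp : PairP r n lam0) : ∃ C : ℕ, ∀ X : ℕ, C ≤ X → ∀ b : ℕ, 1 ≤ b → ∀ a a' : ℕ, X ≤ a →
      a < a' → (a' : ℝ) ≤ X + (X : ℝ) ^ (1 - lam) →
      ¬ (Bad r n C X ((a : ℚ) / b) ∧ Bad r n C X ((a' : ℚ) / b)) := by
  obtain ⟨C0, hC0⟩ := rep_z r n lam0 lam h0 h1 h2 hp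
  refine ⟨2 * C0 + 2, fun X hX b hb a a' ha haa hle hbad => ?_⟩
  have hXR : (1 : ℝ) ≤ X := by exact_mod_cast (by omega : 1 ≤ X)
  have hX0 : (0 : ℝ) < X := by linarith
  have haR : (X : ℝ) ≤ a := by exact_mod_cast ha
  have ha0 : (0 : ℝ) < a := by linarith
  have haa' : (a : ℝ) < a' := by exact_mod_cast haa
  obtain ⟨e1, e2, e3, e4, e5⟩ := num_pair (by omega : 1 ≤ a) hb haa
  have hXX : (X : ℝ) ^ (1 - lam) ≤ X := by
    calc (X : ℝ) ^ (1 - lam) ≤ (X : ℝ) ^ (1 : ℝ) :=
          Real.rpow_le_rpow_of_exponent_le hXR (by linarith)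
      _ = X := Real.rpow_one _
  have ha2 : a ≤ X ^ 2 := by
    have h3 : (a : ℝ) ≤ 2 * X := by linarith
    have h4 : a ≤ 2 * X := by exact_mod_cast h3
    nlinarith
  refine hC0 a (by omega) _ _ e1 e2 e3 e4 ?_
    ⟨hbad.1.square (by omega) ha2 (by omega), hbad.2.square (by omega) ha2 (by omega)⟩
  rw [e5, abs_of_pos (div_pos (by linarith) ha0), div_le_iff₀ ha0]
  have h3 : (X : ℝ) ^ (1 - lam) ≤ (a : ℝ) ^ (1 - lam) :=
    Real.rpow_le_rpow hX0.le haR (by linarith)
  have h4 : (a : ℝ) ^ (-lam) * a = (a : ℝ) ^ (1 - lam) := by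
    rw [sub_eq_add_neg, add_comm, Real.rpow_add ha0, Real.rpow_one]
  rw [h4]
  linarith

theorem cnt_z (r n : ℕ) (lam0 lam lam' : ℝ) (h0 : 0 < lam0) (h1 : lam0 < lam) (h2 : lam ≤ 1)
    (h3 : lam < lam') (hp : PairP r n lam0) : ∃ C : ℕ, ∀ T : ℕ, C ≤ T → ∀ b : ℕ, 1 ≤ b →
      ∀ S : Finset ℕ, (∀ a ∈ S, 1 ≤ a ∧ a ≤ T ∧ Bad r n C T ((a : ℚ) / b)) →
      (S.card : ℝ) ≤ (T : ℝ) ^ lam' := by
  classical
  obtain ⟨C0, hC0⟩ := rep_z r n lam0 lam h0 h1 h2 hp
  obtain ⟨C1, hC1⟩ := log_absorb (C0 + 2) lam (lam' - lam) (by positivity) (by linarith)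
    (by linarith)
  refine ⟨C0 + C1 + 1, fun T hT b hb S hS => ?_⟩
  have hTR : (1 : ℝ) ≤ T := by exact_mod_cast (by omega : 1 ≤ T)
  have hT0 : (0 : ℝ) < T := by linarith
  set S1 := S.filter (fun a => a < C0) with hS1
  set S2 := S.filter (fun a => ¬ a < C0) with hS2
  have hcard : S.card = S1.card + S2.card := by
    rw [hS1, hS2]
    exact (Finset.card_filter_add_card_filter_not _).symm
  have hc1 : (S1.card : ℝ) ≤ C0 := by
    have h4 : S1 ⊆ Finset.range C0 := by
      intro a ha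
      rw [hS1, Finset.mem_filter] at ha
      exact Finset.mem_range.2 ha.2
    have h5 := Finset.card_le_card h4
    rw [Finset.card_range] at h5
    exact_mod_cast h5
  have hθ0 : 0 < (T : ℝ) ^ (-lam) := by positivity
  have hθ1 : (T : ℝ) ^ (-lam) ≤ 1 := Real.rpow_le_one_of_one_le_of_nonpos hTR (by linarith)
  have hinj : Function.Injective (fun a : ℕ => (a : ℚ)) := fun a b h => by
    simpa using h
  have hc2 : (S2.card : ℝ) ≤ 2 * (Real.log T - 0) / (T : ℝ) ^ (-lam) + 1 := by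
    rw [← Finset.card_image_of_injective S2 hinj]
    refine log_count _ 0 (Real.log T) _ (Real.log_nonneg hTR) hθ0 hθ1 ?_ ?_ ?_ ?_
    · intro β hβ
      obtain ⟨a, ha, rfl⟩ := Finset.mem_image.1 hβ
      have h4 := (hS a (Finset.mem_filter.1 ha).1).1
      exact_mod_cast h4
    · intro β hβ
      obtain ⟨a, ha, rfl⟩ := Finset.mem_image.1 hβ
      have h4 := (hS a (Finset.mem_filter.1 ha).1).1
      apply Real.log_nonneg
      exact_mod_cast h4
    · intro β hβ
      obtain ⟨a, ha, rfl⟩ := Finset.mem_image.1 hβ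
      have h4 := hS a (Finset.mem_filter.1 ha).1
      apply Real.log_le_log
      · exact_mod_cast h4.1
      · exact_mod_cast h4.2.1
    · intro β hβ β' hβ' hlt
      obtain ⟨a, ha, rfl⟩ := Finset.mem_image.1 hβ
      obtain ⟨a', ha', rfl⟩ := Finset.mem_image.1 hβ'
      have h4 := hS a (Finset.mem_filter.1 ha).1
      have h5 := hS a' (Finset.mem_filter.1 ha').1
      have h6 := (Finset.mem_filter.1 ha).2
      have haa : a < a' := by exact_mod_cast hlt
      obtain ⟨e1, e2, e3, e4, e5⟩ := num_pair h4.1 hb haa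
      have haR : (1 : ℝ) ≤ a := by exact_mod_cast h4.1
      have ha0 : (0 : ℝ) < a := by linarith
      have haa' : (a : ℝ) < a' := by exact_mod_cast haa
      by_contra hcon
      push Not at hcon
      refine hC0 a (by omega) _ _ e1 e2 e3 e4 ?_
        ⟨h4.2.2.level (by omega) h4.2.1 (by omega), h5.2.2.level (by omega) h4.2.1 (by omega)⟩
      rw [e5, abs_of_pos (div_pos (by linarith) ha0)]
      have e6 : (((a' : ℚ) / (a : ℚ) : ℚ) : ℝ) - 1 = ((a' : ℝ) - a) / a := by
        push_cast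
        field_simp
      rw [e6] at hcon
      refine hcon.trans ?_
      apply Real.rpow_le_rpow_of_nonpos ha0 _ (by linarith)
      exact_mod_cast h4.2.1
  have hinv : 2 * (Real.log T - 0) / (T : ℝ) ^ (-lam) = 2 * (Real.log T * (T : ℝ) ^ lam) := by
    rw [Real.rpow_neg hT0.le, sub_zero]
    field_simp
  have h4 := hC1 T (by omega)
  have h5 : lam + (lam' - lam) = lam' := by ring
  rw [h5] at h4
  have h6 : 0 ≤ Real.log T * (T : ℝ) ^ lam := mul_nonneg (Real.log_nonneg hTR) (by positivity)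
  have h7 : (S.card : ℝ) = S1.card + S2.card := by exact_mod_cast hcard
  rw [hinv] at hc2
  have h8 : (0 : ℝ) ≤ C0 * (Real.log T * (T : ℝ) ^ lam) := mul_nonneg (Nat.cast_nonneg _) h6
  rw [h7]
  linarith

theorem hgt_z (r n : ℕ) (lam0 lam lam' : ℝ) (h0 : 0 < lam0) (h1 : lam0 < lam) (h2 : lam ≤ 1)
    (h3 : lam < lam') (hp : PairP r n lam0) : ∃ C : ℕ, ∀ T : ℕ, C ≤ T →
      ∀ S : Finset ℚ, (∀ β ∈ S, 0 < β ∧ β.num ≤ T ∧ β.den ≤ T ∧ Bad r n C T β) →
      (S.card : ℝ) ≤ (T : ℝ) ^ (2 * lam') := by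
  obtain ⟨C0, hC0⟩ := rep_z r n lam0 lam h0 h1 h2 hp
  obtain ⟨C1, hC1⟩ := log_absorb 4 (2 * lam) (2 * lam' - 2 * lam) (by norm_num) (by linarith)
    (by linarith)
  refine ⟨2 * C0 + C1 + 1, fun T hT S hS => ?_⟩
  have hTR : (1 : ℝ) ≤ T := by exact_mod_cast (by omega : 1 ≤ T)
  have hT0 : (0 : ℝ) < T := by linarith
  have hθ0 : 0 < (T : ℝ) ^ (-(2 * lam)) := by positivity
  have hθ1 : (T : ℝ) ^ (-(2 * lam)) ≤ 1 :=
    Real.rpow_le_one_of_one_le_of_nonpos hTR (by linarith)
  have hnum : ∀ β ∈ S, (1 : ℤ) ≤ β.num ∧ (1 : ℝ) ≤ β.den ∧ (β.den : ℝ) ≤ T ∧ (β : ℝ) = β.num / β.den := by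
    intro β hβ
    obtain ⟨g1, g2, g3, g4⟩ := hS β hβ
    refine ⟨Rat.num_pos.2 g1, by exact_mod_cast β.den_pos, by exact_mod_cast g3, ?_⟩
    exact_mod_cast (Rat.num_div_den β).symm
  have hc : (S.card : ℝ) ≤ 2 * (Real.log T - (-Real.log T)) / (T : ℝ) ^ (-(2 * lam)) + 1 := by
    refine log_count S (-Real.log T) (Real.log T) _ ?_ hθ0 hθ1 (fun β hβ => (hS β hβ).1) ?_ ?_ ?_
    · have := Real.log_nonneg hTR
      linarith
    · intro β hβ
      obtain ⟨g1, g2, g3, g4⟩ := hnum β hβ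
      have g1' : (1 : ℝ) ≤ β.num := by exact_mod_cast g1
      rw [← Real.log_inv]
      apply Real.log_le_log (by positivity)
      rw [g4, inv_eq_one_div, div_le_div_iff₀ hT0 (by linarith)]
      nlinarith
    · intro β hβ
      obtain ⟨g1, g2, g3, g4⟩ := hnum β hβ
      have g1' : (1 : ℝ) ≤ β.num := by exact_mod_cast g1
      have g5 : (β.num : ℝ) ≤ T := by exact_mod_cast (hS β hβ).2.1
      apply Real.log_le_log
      · rw [g4]
        positivity
      · rw [g4, div_le_iff₀ (by linarith)]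
        nlinarith
    · intro β hβ β' hβ' hlt
      obtain ⟨g1, g2, g3, g4⟩ := hS β hβ
      obtain ⟨k1, k2, k3, k4⟩ := hS β' hβ'
      by_contra hcon
      push Not at hcon
      have hT2 : C0 ≤ T ^ 2 := by nlinarith
      refine hC0 (T ^ 2) hT2 β β' g1 k1 hlt.ne ?_ ?_
        ⟨g4.square (by omega) le_rfl (by omega), k4.square (by omega) le_rfl (by omega)⟩
      · have hn1 : (1 : ℤ) ≤ β.num := (hnum β hβ).1
        obtain ⟨u, hu⟩ : ∃ u : ℕ, (u : ℤ) = β.num := ⟨β.num.toNat, by omega⟩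
        have hd : (β' / β).den ∣ β'.den * u := by
          have e1 : β' / β = ((β'.num * β.den : ℤ) : ℚ) / ((β'.den * u : ℤ) : ℚ) := by
            have h5 : (β' : ℚ) = β'.num / β'.den := (Rat.num_div_den β').symm
            have h6 : (β : ℚ) = β.num / β.den := (Rat.num_div_den β).symm
            rw [h5, h6]
            have hu' : (u : ℚ) = β.num := by exact_mod_cast hu
            have hd1 : (β.den : ℚ) ≠ 0 := by exact_mod_cast β.den_pos.ne'
            have hd2 : (β'.den : ℚ) ≠ 0 := by exact_mod_cast β'.den_pos.ne'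
            have hn2 : (β.num : ℚ) ≠ 0 := by
              have : (0 : ℚ) < β.num := by exact_mod_cast hn1
              exact this.ne'
            push_cast
            rw [hu']
            simp only [Rat.num_div_den]
            have h7 : (β'.num : ℚ) * β.den / (β'.den * β.num) = (β'.num / β'.den) / (β.num / β.den) := by
              field_simp
            rw [h7, Rat.num_div_den, Rat.num_div_den]
          rw [e1]
          have h3 := Rat.den_dvd (β'.num * β.den) ((β'.den : ℤ) * u)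
          rw [Rat.divInt_eq_div] at h3
          exact_mod_cast h3
        have hu1 : 1 ≤ u := by
          have : (1 : ℤ) ≤ u := by rw [hu]; exact hn1
          exact_mod_cast this
        have hu2 : u ≤ T := by
          have : (u : ℤ) ≤ T := by rw [hu]; exact g2
          exact_mod_cast this
        refine (Nat.le_of_dvd (Nat.mul_pos β'.den_pos (by omega)) hd).trans ?_
        rw [pow_two]
        exact Nat.mul_le_mul k3 hu2
      · have e1 : (1 : ℚ) < β' / β := by
          rw [lt_div_iff₀ g1, one_mul]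
          exact hlt
        have e2 : (0 : ℝ) < ((β' / β : ℚ) : ℝ) - 1 := by
          have : (1 : ℝ) < ((β' / β : ℚ) : ℝ) := by exact_mod_cast e1
          linarith
        rw [abs_of_pos e2]
        refine hcon.trans (le_of_eq ?_)
        push_cast
        rw [← Real.rpow_natCast, ← Real.rpow_mul hT0.le]
        congr 1
        push_cast
        ring
  have hinv : 2 * (Real.log T - (-Real.log T)) / (T : ℝ) ^ (-(2 * lam)) =
      4 * (Real.log T * (T : ℝ) ^ (2 * lam)) := by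
    rw [Real.rpow_neg hT0.le]
    field_simp
    ring
  rw [hinv] at hc
  have h4 := hC1 T (by omega)
  have h5 : 2 * lam + (2 * lam' - 2 * lam) = 2 * lam' := by ring
  rw [h5] at h4
  linarith

end Pool.Agent.H8.RZ
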